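import Mathlib

/-!
# The number of indecomposable direct summands of a module
-/

set_option autoImplicit false

namespace Pool.Agent.H381.NK

/-- `N` is indecomposable: nonzero, and not the direct sum of two nonzero submodules. -/
def Indecomposable (R N : Type) [Ring R] [AddCommGroup N] [Module R N] : Prop :=
  Nontrivial N ∧ ∀ p q : Submodule R N, IsCompl p q → p = ⊥ ∨ q = ⊥

/-- The indecomposable direct summands of `N`. -/
def IndSummand (R N : Type) [Ring R] [AddCommGroup N] [Module R N] : Type :=
  {p : Submodule R N // Indecomposable R p ∧ ∃ q, IsCompl p q}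

/-- Isomorphism of direct summands. -/
instance isoSetoid (R N : Type) [Ring R] [AddCommGroup N] [Module R N] :
    Setoid (IndSummand R N) where
  r p q := Nonempty (p.1 ≃ₗ[R] q.1)
  iseqv := ⟨fun p => ⟨LinearEquiv.refl R _⟩, fun ⟨e⟩ => ⟨e.symm⟩, fun ⟨e⟩ ⟨f⟩ => ⟨e.trans f⟩⟩

/-- `|N|`: the number of isomorphism classes of indecomposable direct summands of `N`. -/
noncomputable def numInd (R N : Type) [Ring R] [AddCommGroup N] [Module R N] : Cardinal.{0} :=
  Cardinal.mk (Quotient (isoSetoid R N))

/-- bijections of quotients -/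
theorem mk_quotient_eq {α β : Type} (s : Setoid α) (t : Setoid β) (f : α → β)
    (h1 : ∀ a a', s a a' ↔ t (f a) (f a')) (h2 : ∀ b, ∃ a, t (f a) b) :
    Cardinal.mk (Quotient s) = Cardinal.mk (Quotient t) := by
  refine Cardinal.mk_congr (Equiv.ofBijective (Quotient.map f fun a a' h => (h1 a a').1 h) ⟨?_, ?_⟩)
  · intro x y
    induction x using Quotient.inductionOn with
    | h a =>
      induction y using Quotient.inductionOn with
      | h a' =>
        intro h
        exact Quotient.sound ((h1 a a').2 (Quotient.exact h))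
  · intro y
    induction y using Quotient.inductionOn with
    | h b =>
      obtain ⟨a, ha⟩ := h2 b
      exact ⟨Quotient.mk s a, Quotient.sound ha⟩

/-- primitive idempotents -/
def IsPrim {E : Type} [Ring E] (e : E) : Prop :=
  e * e = e ∧ e ≠ 0 ∧ ∀ g : E, g * g = g → e * g = g → g * e = g → g = 0 ∨ g = e

def Prim (E : Type) [Ring E] : Type := {e : E // IsPrim e}

/-- equivalence of idempotents -/
def Eqv {E : Type} [Ring E] (e f : E) : Prop := ∃ a b : E, a * b = e ∧ b * a = f

theorem Eqv.symm {E : Type} [Ring E] {e f : E} (h : Eqv e f) : Eqv f e := by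
  obtain ⟨a, b, h1, h2⟩ := h
  exact ⟨b, a, h2, h1⟩

theorem Eqv.trans {E : Type} [Ring E] {e f g : E} (he : e * e = e) (hg : g * g = g)
    (h : Eqv e f) (h' : Eqv f g) : Eqv e g := by
  obtain ⟨a, b, h1, h2⟩ := h
  obtain ⟨c, d, h3, h4⟩ := h'
  refine ⟨a * c, d * b, ?_, ?_⟩
  · calc a * c * (d * b) = a * (c * d) * b := by noncomm_ring
      _ = (a * b) * (a * b) := by rw [h3, ← h2]; noncomm_ring
      _ = e := by rw [h1, he]
  · calc d * b * (a * c) = d * (b * a) * c := by noncomm_ring
      _ = (d * c) * (d * c) := by rw [h2, ← h3]; noncomm_ring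
      _ = g := by rw [h4, hg]

instance primSetoid (E : Type) [Ring E] : Setoid (Prim E) where
  r e f := Eqv e.1 f.1
  iseqv := ⟨fun e => ⟨e.1, e.1, e.2.1, e.2.1⟩, fun h => h.symm,
    fun {e f g} h h' => Eqv.trans e.2.1 g.2.1 h h'⟩

/-- the number of classes of primitive idempotents -/
noncomputable def nu (E : Type) [Ring E] : Cardinal.{0} := Cardinal.mk (Quotient (primSetoid E))

theorem nu_congr {E E' : Type} [Ring E] [Ring E'] (φ : E ≃+* E') : nu E = nu E' := by
  have hp : ∀ {E E' : Type} [Ring E] [Ring E'] (φ : E ≃+* E') (e : E), IsPrim e → IsPrim (φ e) := by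
    intro E E' _ _ φ e he
    refine ⟨by rw [← map_mul, he.1], fun h => he.2.1 (by simpa using h), fun g h1 h2 h3 => ?_⟩
    have := he.2.2 (φ.symm g) (by rw [← map_mul, h1])
      (by apply φ.injective; rw [map_mul, φ.apply_symm_apply, h2])
      (by apply φ.injective; rw [map_mul, φ.apply_symm_apply, h3])
    rcases this with h | h
    · left; simpa using h
    · right; rw [← h, φ.apply_symm_apply]
  refine mk_quotient_eq _ _ (fun e => ⟨φ e.1, hp φ e.1 e.2⟩) ?_ ?_
  · intro e e'
    constructor
    · rintro ⟨a, b, h1, h2⟩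
      exact ⟨φ a, φ b, by rw [← map_mul, h1], by rw [← map_mul, h2]⟩
    · rintro ⟨a, b, h1, h2⟩
      refine ⟨φ.symm a, φ.symm b, ?_, ?_⟩
      · rw [← map_mul, h1]; exact φ.symm_apply_apply _
      · rw [← map_mul, h2]; exact φ.symm_apply_apply _
  · intro e
    refine ⟨⟨φ.symm e.1, hp φ.symm e.1 e.2⟩, e.1, e.1, ?_, e.2.1⟩
    rw [e.2.1]
    exact (φ.apply_symm_apply _).symm

theorem nu_op (E : Type) [Ring E] : nu Eᵐᵒᵖ = nu E := by
  have hp : ∀ {E : Type} [Ring E] (e : Eᵐᵒᵖ), IsPrim e → IsPrim e.unop := by
    intro E _ e he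
    refine ⟨by rw [← MulOpposite.unop_mul, he.1], fun h => he.2.1 (by simpa using h),
      fun g h1 h2 h3 => ?_⟩
    have := he.2.2 (MulOpposite.op g) (by rw [← MulOpposite.op_mul, h1])
      (by apply MulOpposite.unop_injective; simpa using h3)
      (by apply MulOpposite.unop_injective; simpa using h2)
    rcases this with h | h
    · left; simpa using h
    · right; rw [← h, MulOpposite.unop_op]
  refine mk_quotient_eq _ _ (fun e => ⟨e.1.unop, hp e.1 e.2⟩) ?_ ?_
  · intro e e'
    constructor
    · rintro ⟨a, b, h1, h2⟩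
      exact ⟨b.unop, a.unop, by rw [← MulOpposite.unop_mul, h1], by rw [← MulOpposite.unop_mul, h2]⟩
    · rintro ⟨a, b, h1, h2⟩
      refine ⟨MulOpposite.op b, MulOpposite.op a, ?_, ?_⟩
      · rw [← MulOpposite.op_mul, h1]; exact MulOpposite.op_unop _
      · rw [← MulOpposite.op_mul, h2]; exact MulOpposite.op_unop _
  · intro e
    have h : IsPrim (MulOpposite.op e.1) := by
      refine ⟨by rw [← MulOpposite.op_mul, e.2.1], fun h => e.2.2.1 (by simpa using h),
        fun g h1 h2 h3 => ?_⟩
      have := e.2.2.2 g.unop (by rw [← MulOpposite.unop_mul, h1])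
        (by apply MulOpposite.op_injective; simpa using h3)
        (by apply MulOpposite.op_injective; simpa using h2)
      rcases this with h | h
      · left; simpa using h
      · right; apply MulOpposite.unop_injective; simpa using h
    exact ⟨⟨MulOpposite.op e.1, h⟩, e.1, e.1, e.2.1, e.2.1⟩

/-- invariance under split square-zero extensions -/
theorem nu_split {B C : Type} [Ring B] [Ring C] (π : B →+* C) (ι : C →+* B)
    (hπ : ∀ c, π (ι c) = c) (hsq : ∀ b b' : B, π b = 0 → π b' = 0 → b * b' = 0) :
    nu C = nu B := by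
  have key0 : ∀ b : B, b * b = b → π b = 0 → b = 0 := by
    intro b h1 h2
    rw [← h1]
    exact hsq b b h2 h2
  have hι : ∀ c : C, IsPrim c → IsPrim (ι c) := by
    intro c hc
    refine ⟨by rw [← map_mul, hc.1], fun h => hc.2.1 (by rw [← hπ c, h, map_zero]), ?_⟩
    intro g h1 h2 h3
    rcases hc.2.2 (π g) (by rw [← map_mul, h1]) (by rw [← hπ c, ← map_mul, h2])
      (by rw [← hπ c, ← map_mul, h3]) with h | h
    · left
      exact key0 g h1 h
    · right
      have h4 : ι c - g = 0 := by
        apply key0
        · have : ι c * ι c = ι c := by rw [← map_mul, hc.1]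
          rw [sub_mul, mul_sub, mul_sub, this, h2, h3, h1]
          abel
        · rw [map_sub, hπ, h, sub_self]
      exact (sub_eq_zero.1 h4).symm
  refine mk_quotient_eq _ _ (fun c => ⟨ι c.1, hι c.1 c.2⟩) ?_ ?_
  · intro c c'
    constructor
    · rintro ⟨a, b, h1, h2⟩
      exact ⟨ι a, ι b, by rw [← map_mul, h1], by rw [← map_mul, h2]⟩
    · rintro ⟨a, b, h1, h2⟩
      refine ⟨π a, π b, ?_, ?_⟩
      · rw [← map_mul, h1]; exact hπ _
      · rw [← map_mul, h2]; exact hπ _
  · rintro ⟨b, hb⟩
    set e := ι (π b) with he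
    have hee : e * e = e := by rw [he, ← map_mul, ← map_mul, hb.1]
    have hn : π (b - e) = 0 := by rw [map_sub, he, hπ, sub_self]
    set n := b - e with hndef
    have hbe : b = e + n := by rw [hndef]; abel
    have hnn : n * n = 0 := hsq n n hn hn
    have h1 : e * n + n * e = n := by
      have := hb.1
      rw [hbe] at this
      have h2 : (e + n) * (e + n) = e * e + e * n + n * e + n * n := by noncomm_ring
      rw [h2, hee, hnn] at this
      have h3 : e + (e * n + n * e) = e + n := by rw [← this]; abel
      exact add_left_cancel h3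
    have h2 : e * n * e = 0 := by
      have h3 : e * (e * n + n * e) = e * n := by rw [h1]
      have h4 : e * (e * n + n * e) = e * e * n + e * n * e := by noncomm_ring
      rw [h4, hee] at h3
      simpa using h3
    have h3 : e * b * e = e := by
      rw [hbe]
      have : e * (e + n) * e = e * e * e + e * n * e := by noncomm_ring
      rw [this, h2, hee, hee, add_zero]
    have h4 : b * e * b = b := by
      have h5 : b * n * b = 0 := by
        rw [hbe]
        have : (e + n) * n * (e + n) = e * n * e + e * (n * n) + n * n * e + n * n * n := by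
          noncomm_ring
        rw [this, h2, hnn]; simp
      have h6 : b * e * b = b * b * b - b * n * b := by
        rw [hndef]; noncomm_ring
      rw [h6, h5, hb.1, hb.1, sub_zero]
    have hπb : π b * π b = π b := by rw [← map_mul, hb.1]
    have hc : IsPrim (π b) := by
      refine ⟨hπb, fun h => hb.2.1 (key0 b hb.1 h), fun g g1 g2 g3 => ?_⟩
      have hg1 : ι g * ι g = ι g := by rw [← map_mul, g1]
      have hg2 : e * ι g = ι g := by rw [he, ← map_mul, g2]
      have hg3 : ι g * e = ι g := by rw [he, ← map_mul, g3]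
      have hπg : π (b * ι g * b) = g := by rw [map_mul, map_mul, hπ, g2, g3]
      have hid : (b * ι g * b) * (b * ι g * b) = b * ι g * b := by
        calc (b * ι g * b) * (b * ι g * b) = b * ι g * (b * b) * ι g * b := by noncomm_ring
          _ = b * (ι g * e) * b * (e * ι g) * b := by rw [hb.1, hg2, hg3]
          _ = b * ι g * (e * b * e) * ι g * b := by noncomm_ring
          _ = b * (ι g * e * ι g) * b := by rw [h3]; noncomm_ring
          _ = b * ι g * b := by rw [hg3, hg1]
      rcases hb.2.2 (b * ι g * b) hid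
        (by rw [← mul_assoc, ← mul_assoc, hb.1]) (by rw [mul_assoc, hb.1]) with h | h
      · left
        rw [← hπg, h, map_zero]
      · right
        rw [← hπg, h]
    refine ⟨⟨π b, hc⟩, e * b, b * e, ?_, ?_⟩
    · calc e * b * (b * e) = e * (b * b) * e := by noncomm_ring
        _ = e := by rw [hb.1, h3]
    · calc b * e * (e * b) = b * (e * e) * b := by noncomm_ring
        _ = b := by rw [hee, h4]

end Pool.Agent.H381.NK
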