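import Pool.Agent.H381.NK.Pack

/-!
# Self-orthogonality
-/

set_option autoImplicit false
set_option linter.unusedSectionVars false

open CategoryTheory CategoryTheory.Abelian
open Pool.Agent.H190.NK

namespace Pool.Agent.H381.NK

section sequences

variable {R : Type} [Ring R] {S : ShortComplex (ModuleCat.{0} R)} (hS : S.ShortExact)

include hS

/-- extension of maps -/
theorem contra_lift (Y : ModuleCat.{0} R) (h : Subsingleton (Ext S.X₃ Y 1)) (g : S.X₁ ⟶ Y) :
    ∃ g' : S.X₂ ⟶ Y, S.f ≫ g' = g := by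
  obtain ⟨x₂, hx₂⟩ := Ext.contravariant_sequence_exact₁ hS Y (Ext.mk₀ g) (show 1 + 0 = 1 by omega)
    (Subsingleton.elim _ _)
  obtain ⟨g', rfl⟩ := (Ext.addEquiv₀ (X := S.X₂) (Y := Y)).symm.surjective x₂
  refine ⟨g', ?_⟩
  apply (Ext.addEquiv₀ (X := S.X₁) (Y := Y)).symm.injective
  have : Ext.addEquiv₀.symm (S.f ≫ g') = (Ext.mk₀ S.f).comp (Ext.mk₀ g') (zero_add 0) := by
    rw [Ext.mk₀_comp_mk₀]
    rfl
  rw [this]
  exact hx₂

/-- dimension shift, from the third to the first term -/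
theorem contra_shift' [Projective S.X₂] (Y : ModuleCat.{0} R) (n : ℕ)
    (h : Subsingleton (Ext S.X₃ Y (n + 2))) : Subsingleton (Ext S.X₁ Y (n + 1)) := by
  refine subsingleton_of_forall_eq 0 fun x => ?_
  obtain ⟨x₂, hx₂⟩ := Ext.contravariant_sequence_exact₁ hS Y x (show 1 + (n + 1) = n + 2 by omega)
    (Subsingleton.elim _ _)
  rw [← hx₂, Ext.eq_zero_of_projective x₂, Ext.comp_zero]

/-- dimension shift, all degrees -/
theorem contra_shift0 [Projective S.X₂] (Y : ModuleCat.{0} R) (n : ℕ)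
    (h : Subsingleton (Ext S.X₁ Y n)) : Subsingleton (Ext S.X₃ Y (n + 1)) := by
  refine subsingleton_of_forall_eq 0 fun x => ?_
  obtain ⟨x₁, hx₁⟩ := Ext.contravariant_sequence_exact₃ hS Y x (Ext.eq_zero_of_projective _)
    (show 1 + n = n + 1 by omega)
  rw [← hx₁, Subsingleton.elim x₁ 0, Ext.comp_zero]

/-- dimension shift in the second variable -/
theorem co_shift' [Injective S.X₂] (X : ModuleCat.{0} R) (n : ℕ)
    (h : Subsingleton (Ext X S.X₃ n)) : Subsingleton (Ext X S.X₁ (n + 1)) := by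
  refine subsingleton_of_forall_eq 0 fun x => ?_
  obtain ⟨x₃, hx₃⟩ := Ext.covariant_sequence_exact₁ X hS x (Ext.eq_zero_of_injective _)
    (show n + 1 = n + 1 by omega)
  rw [← hx₃, Subsingleton.elim x₃ 0, Ext.zero_comp]

end sequences

/-- `Ext` and retracts -/
theorem ext_retract {R : Type} [Ring R] {A A' : ModuleCat.{0} R} (i : A ⟶ A') (r : A' ⟶ A)
    (h : i ≫ r = 𝟙 A) (Y : ModuleCat.{0} R) (n : ℕ) (hE : Subsingleton (Ext A' Y n)) :
    Subsingleton (Ext A Y n) := by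
  refine subsingleton_of_forall_eq 0 fun x => ?_
  have h1 : x = (Ext.mk₀ i).comp ((Ext.mk₀ r).comp x (zero_add n)) (zero_add n) := by
    rw [Ext.mk₀_comp_mk₀_assoc, h, Ext.mk₀_id_comp]
  rw [h1, Subsingleton.elim ((Ext.mk₀ r).comp x (zero_add n)) 0, Ext.comp_zero]

theorem ext_retract' {R : Type} [Ring R] {A A' : ModuleCat.{0} R} (i : A ⟶ A') (r : A' ⟶ A)
    (h : i ≫ r = 𝟙 A) (Y : ModuleCat.{0} R) (n : ℕ) (hE : Subsingleton (Ext Y A' n)) :
    Subsingleton (Ext Y A n) := by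
  refine subsingleton_of_forall_eq 0 fun x => ?_
  have h1 : x = (x.comp (Ext.mk₀ i) (add_zero n)).comp (Ext.mk₀ r) (add_zero n) := by
    rw [Ext.comp_assoc_of_third_deg_zero, Ext.mk₀_comp_mk₀, h, Ext.comp_mk₀_id]
  rw [h1, Subsingleton.elim (x.comp (Ext.mk₀ i) (add_zero n)) 0, Ext.zero_comp]

variable {K : Type} [Field K] {T : Type} [Ring T] [Algebra K T]
  {X : Type} [AddCommGroup X] [Module T X]

/-- the modules `N` with `Ext^i(N, X) = 0`, `i ≥ 1` -/
def CB (T X N : Type) [Ring T] [AddCommGroup X] [Module T X] [AddCommGroup N] [Module T N] :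
    Prop :=
  Module.Finite T N ∧
    ∀ n : ℕ, Subsingleton (Ext.{0} (ModuleCat.of T N) (ModuleCat.of T X) (n + 1))

/-- an exact sequence `0 → N₁ → T^m → N → 0` -/
structure Seq {N₁ N : Type} [AddCommGroup N₁] [Module T N₁] [AddCommGroup N] [Module T N] {m : ℕ}
    (j : N₁ →ₗ[T] (Fin m → T)) (ϖ : (Fin m → T) →ₗ[T] N) : Prop where
  inj : Function.Injective j
  surj : Function.Surjective ϖ
  zero : ∀ w, ϖ (j w) = 0
  ex : ∀ v, ϖ v = 0 → ∃ w, j w = v

section seq

variable {N₁ N : Type} [AddCommGroup N₁] [Module T N₁] [AddCommGroup N] [Module T N] {m : ℕ}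
    {j : N₁ →ₗ[T] (Fin m → T)} {ϖ : (Fin m → T) →ₗ[T] N}

theorem Seq.shortExact (s : Seq j ϖ) : (ShortComplex.mk (ModuleCat.ofHom j) (ModuleCat.ofHom ϖ)
      (by ext a; exact s.zero a)).ShortExact :=
  shortExact_of j ϖ s.inj s.surj s.zero s.ex

theorem exists_seq (N : Type) [AddCommGroup N] [Module T N] [Module.Finite T N] :
    ∃ (m : ℕ) (ϖ : (Fin m → T) →ₗ[T] N), Seq (LinearMap.ker ϖ).subtype ϖ := by
  obtain ⟨m, ϖ, hϖ⟩ := Module.Finite.exists_fin' T N
  exact ⟨m, ϖ, ⟨Subtype.val_injective, hϖ, fun w => w.2, fun v hv => ⟨⟨v, hv⟩, rfl⟩⟩⟩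

/-- maps killing the first term factor -/
theorem Seq.factor (s : Seq j ϖ) {P : Type} [AddCommGroup P] [Module T P]
    (φ : (Fin m → T) →ₗ[T] P) (h : ∀ w, φ (j w) = 0) : ∃ ψ : N →ₗ[T] P, ψ ∘ₗ ϖ = φ := by
  have hker : LinearMap.ker ϖ ≤ LinearMap.ker φ := by
    intro v hv
    obtain ⟨w, rfl⟩ := s.ex v hv
    exact h w
  refine ⟨(Submodule.liftQ _ φ hker) ∘ₗ (ϖ.quotKerEquivOfSurjective s.surj).symm.toLinearMap, ?_⟩
  refine LinearMap.ext fun v => ?_
  have h1 : (ϖ.quotKerEquivOfSurjective s.surj).symm (ϖ v) = Submodule.Quotient.mk v := by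
    rw [LinearEquiv.symm_apply_eq]
    rfl
  change (Submodule.liftQ _ φ hker) ((ϖ.quotKerEquivOfSurjective s.surj).symm (ϖ v)) = φ v
  rw [h1]
  rfl

instance : Projective (ModuleCat.of T (Fin m → T)) :=
  (IsProjective.iff_projective _).mp inferInstance

theorem Seq.cb (s : Seq j ϖ) [IsNoetherianRing T] (h : CB T X N) : CB T X N₁ := by
  refine ⟨?_, fun n => ?_⟩
  · exact Module.Finite.of_injective j s.inj
  · exact contra_shift' s.shortExact (ModuleCat.of T X) n (h.2 (n + 1))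

theorem Seq.extend (s : Seq j ϖ) (y : Sy K T) (h : CB T X N) (φ : N₁ →ₗ[T] (T × X)) :
    ∃ ψ : (Fin m → T) →ₗ[T] (T × X), ψ ∘ₗ j = φ := by
  obtain ⟨ψ₁, hψ₁⟩ := y.injective_self.out j s.inj (LinearMap.fst T T X ∘ₗ φ)
  obtain ⟨ψ₂, hψ₂⟩ := contra_lift s.shortExact (ModuleCat.of T X) (h.2 0)
    (ModuleCat.ofHom (LinearMap.snd T T X ∘ₗ φ))
  refine ⟨ψ₁.prod ψ₂.hom, ?_⟩
  refine LinearMap.ext fun w => Prod.ext (hψ₁ w) ?_
  have := LinearMap.congr_fun (congrArg ModuleCat.Hom.hom hψ₂) w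
  exact this

end seq

variable [Module K X] [IsScalarTower K T X]
variable {B : Type} [Ring B] [Algebra K B] [Module B (T × X)] [SMulCommClass T B (T × X)]
  {ι : Module.End T (T × X) →ₐ[K] B}

section seqB

variable {N₁ N : Type} [AddCommGroup N₁] [Module T N₁] [AddCommGroup N] [Module T N] {m : ℕ}
    {j : N₁ →ₗ[T] (Fin m → T)} {ϖ : (Fin m → T) →ₗ[T] N}

variable (B) in
theorem Seq.zeroB (s : Seq j ϖ) :
    ModuleCat.ofHom (Fm X B ϖ) ≫ ModuleCat.ofHom (Fm X B j) = 0 := by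
  refine ModuleCat.hom_ext (LinearMap.ext fun φ => LinearMap.ext fun w => ?_)
  change φ (ϖ (j w)) = 0
  rw [s.zero, map_zero]

variable (B) in
/-- the exact sequence `0 → F N → F T^m → F N₁ → 0` -/
theorem Seq.shortExactB (s : Seq j ϖ) (y : Sy K T) (h : CB T X N) :
    (ShortComplex.mk (ModuleCat.ofHom (Fm X B ϖ)) (ModuleCat.ofHom (Fm X B j))
      (s.zeroB B)).ShortExact := by
  refine shortExact_of (Fm X B ϖ) (Fm X B j) ?_ ?_ ?_ ?_
  · intro φ φ' h
    refine LinearMap.ext fun x => ?_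
    obtain ⟨v, rfl⟩ := s.surj x
    exact LinearMap.congr_fun h v
  · intro φ
    exact s.extend y h φ
  · intro φ
    refine LinearMap.ext fun w => ?_
    change φ (ϖ (j w)) = 0
    rw [s.zero, map_zero]
  · intro φ hφ
    exact s.factor φ (fun w => LinearMap.congr_fun hφ w)

end seqB

variable [Module.Finite K X] [Module.Finite K T]

/-- modules killed by `ee` have no extensions by `F N` -/
theorem Pk.ext_zero (h : Pk ι) (y : Sy K T) {Q : Type} [AddCommGroup Q] [Module B Q]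
    (hQ : ∀ q : Q, ι (ee T X) • q = 0) (i : ℕ) : ∀ (N : Type) [AddCommGroup N] [Module T N],
    CB T X N → Subsingleton (Ext.{0} (ModuleCat.of B Q) (ModuleCat.of B (N →ₗ[T] (T × X))) i) := by
  have : IsNoetherianRing T := isNoetherian_of_tower K inferInstance
  induction i with
  | zero =>
    intro N _ _ hN
    refine subsingleton_of_forall_eq 0 fun x => ?_
    obtain ⟨g, rfl⟩ := Ext.addEquiv₀.symm.surjective x
    have : g = 0 := ModuleCat.hom_ext (h.hom_zero' y hQ g.hom)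
    rw [this, map_zero]
  | succ i ih =>
    intro N _ _ hN
    have := hN.1
    obtain ⟨m, ϖ, s⟩ := exists_seq (T := T) N
    have hinj := h.injective_free y m
    have : Injective (ModuleCat.of B ((Fin m → T) →ₗ[T] (T × X))) :=
      Module.injective_object_of_injective_module B _
    exact co_shift' (s.shortExactB B y hN) (ModuleCat.of B Q) i (ih _ (s.cb hN))

/-- the kernel of `B → End_T (T × X)` -/
def ann (B T X : Type) [Ring T] [AddCommGroup X] [Module T X] [Ring B] [Module B (T × X)]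
    [SMulCommClass T B (T × X)] : Submodule B B :=
  LinearMap.ker (LinearMap.toSpanSingleton B ((T × X) →ₗ[T] (T × X)) LinearMap.id)

theorem mem_ann (b : B) : b ∈ ann B T X ↔ ∀ m : T × X, b • m = 0 := by
  rw [ann, LinearMap.mem_ker]
  exact ⟨fun h m => LinearMap.congr_fun h m, fun h => LinearMap.ext h⟩

theorem Pk.ext_MM (h : Pk ι) (y : Sy K T) (i : ℕ) (N : Type) [AddCommGroup N] [Module T N]
    (hN : CB T X N) :
    Subsingleton (Ext.{0} (ModuleCat.of B ((T × X) →ₗ[T] (T × X)))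
      (ModuleCat.of B (N →ₗ[T] (T × X))) (i + 1)) := by
  have hS := shortExact_of (ann B T X).subtype
    (LinearMap.toSpanSingleton B ((T × X) →ₗ[T] (T × X)) LinearMap.id) Subtype.val_injective
    (fun c => ⟨ι c, LinearMap.ext fun m => h.smul c m⟩) (fun l => l.2) (fun b hb => ⟨⟨b, hb⟩, rfl⟩)
  have : Projective (ModuleCat.of B B) := (IsProjective.iff_projective _).mp inferInstance
  refine contra_shift0 hS _ i (h.ext_zero y (fun l => ?_) i N hN)
  exact Subtype.ext (h.left l.1 ((mem_ann l.1).1 l.2))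

theorem Pk.ext_X (h : Pk ι) (y : Sy K T) (i : ℕ) (N : Type) [AddCommGroup N] [Module T N]
    (hN : CB T X N) :
    Subsingleton (Ext.{0} (ModuleCat.of B (X →ₗ[T] (T × X)))
      (ModuleCat.of B (N →ₗ[T] (T × X))) (i + 1)) := by
  refine ext_retract (ModuleCat.ofHom (Fm X B (LinearMap.snd T T X)))
    (ModuleCat.ofHom (Fm X B (LinearMap.inr T T X))) ?_ _ _ (h.ext_MM y i N hN)
  exact ModuleCat.hom_ext (LinearMap.ext fun φ => LinearMap.ext fun x => rfl)

section main

variable {W : Type} [AddCommGroup W] [Module T W] {m : ℕ}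
    {j : W →ₗ[T] (Fin m → T)} {ϖ : (Fin m → T) →ₗ[T] X}

/-- maps `W → X` lift to `T^m` -/
theorem Seq.lift (s : Seq j ϖ) (y : Sy K T) (hX : CB T X X) (h : W →ₗ[T] X) :
    ∃ h' : W →ₗ[T] (Fin m → T), ϖ ∘ₗ h' = h := by
  have hinj := inj_pi y m
  have : Injective (ModuleCat.of T (Fin m → T)) := Module.injective_object_of_injective_module T _
  have h2 : Subsingleton (Ext.{0} (ModuleCat.of T X) (ModuleCat.of T W) 2) :=
    co_shift' s.shortExact (ModuleCat.of T X) 1 (hX.2 0)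
  have h1 : Subsingleton (Ext.{0} (ModuleCat.of T W) (ModuleCat.of T W) 1) :=
    contra_shift' s.shortExact (ModuleCat.of T W) 0 h2
  obtain ⟨g, hg⟩ := co_lift s.shortExact (ModuleCat.of T W) h1 (ModuleCat.ofHom h)
  exact ⟨g.hom, congrArg ModuleCat.Hom.hom hg⟩

/-- all `B`-linear maps `F X → F N` come from `T`-linear maps `N → X` -/
theorem Pk.hom_X (h : Pk ι) {N : Type} [AddCommGroup N] [Module T N]
    (g : (X →ₗ[T] (T × X)) →ₗ[B] (N →ₗ[T] (T × X))) : ∃ k : N →ₗ[T] X, ∀ φ, g φ = φ ∘ₗ k := by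
  refine ⟨LinearMap.snd T T X ∘ₗ g (LinearMap.inr T T X), fun φ => ?_⟩
  have h1 : φ = ι (φ ∘ₗ LinearMap.snd T T X) • LinearMap.inr T T X := by
    refine LinearMap.ext fun x => ?_
    change φ x = ι (φ ∘ₗ LinearMap.snd T T X) • ((0, x) : T × X)
    rw [h.smul]
    rfl
  conv_lhs => rw [h1, map_smul]
  refine LinearMap.ext fun x => ?_
  change ι (φ ∘ₗ LinearMap.snd T T X) • (g (LinearMap.inr T T X) x) = _
  rw [h.smul]
  rfl

/-- the module `F W` is self-orthogonal -/
theorem Pk.selfOrthogonal (h : Pk ι) (y : Sy K T) (hX : CB T X X) (s : Seq j ϖ) (i : ℕ) :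
    Subsingleton (Ext.{0} (ModuleCat.of B (W →ₗ[T] (T × X)))
      (ModuleCat.of B (W →ₗ[T] (T × X))) (i + 1)) := by
  have : IsNoetherianRing T := isNoetherian_of_tower K inferInstance
  have hP := h.projective_free m
  have : Projective (ModuleCat.of B ((Fin m → T) →ₗ[T] (T × X))) :=
    (IsProjective.iff_projective _).mp hP
  cases i with
  | zero =>
    refine contra_one (s.shortExactB B y hX) _ fun g => ?_
    obtain ⟨k, hk⟩ := h.hom_X g.hom
    obtain ⟨k', rfl⟩ := s.lift y hX k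
    refine ⟨ModuleCat.ofHom (Fm X B k'), ?_⟩
    apply ModuleCat.hom_ext
    refine LinearMap.ext fun φ => ?_
    exact (hk φ).symm
  | succ i =>
    exact contra_shift (s.shortExactB B y hX) _ i (h.ext_X y i W (s.cb hX))

end main

end Pool.Agent.H381.NK
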