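import Pool.Agent.H381.NK.Retract

/-!
# Exchange of indecomposable summands, and syzygies over a self-injective ring
-/

set_option autoImplicit false

namespace Pool.Agent.H381.NK

section exchange

variable {R : Type} [Ring R] {N : Type} [AddCommGroup N] [Module R N]
  {D : Type} [AddCommGroup D] [Module R D] {D' : Type} [AddCommGroup D'] [Module R D']
  {A : Type} [AddCommGroup A] [Module R A] {A' : Type} [AddCommGroup A'] [Module R A']

/-- Fitting -/
theorem fitting [IsArtinian R D] [IsNoetherian R D] (hD : Indecomposable R D) (f : D →ₗ[R] D) :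
    (∃ k : ℕ, 1 ≤ k ∧ ∀ x, (f ^ k : Module.End R D) x = 0) ∨ Function.Bijective f := by
  obtain ⟨k, hk1, hk⟩ := ((Filter.eventually_ge_atTop 1).and
    (LinearMap.eventually_isCompl_ker_pow_range_pow (R := R) (M := D) f)).exists
  rcases hD.2 _ _ hk with h | h
  · right
    have hinj : Function.Injective f := by
      rw [← LinearMap.ker_eq_bot, eq_bot_iff, ← h]
      intro x hx
      rw [LinearMap.mem_ker] at hx ⊢
      obtain ⟨m, rfl⟩ : ∃ m, k = m + 1 := ⟨k - 1, by omega⟩
      rw [pow_succ]
      change (f ^ m : Module.End R D) (f x) = 0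
      rw [hx, map_zero]
    exact IsArtinian.bijective_of_injective_endomorphism f hinj
  · left
    refine ⟨k, hk1, fun x => ?_⟩
    have : (f ^ k : Module.End R D) x ∈ LinearMap.range (f ^ k : Module.End R D) := ⟨x, rfl⟩
    rw [h] at this
    simpa using this

/-- if `f + g = 1` then `f` or `g` is bijective -/
theorem bijective_or [IsArtinian R D] [IsNoetherian R D] (hD : Indecomposable R D)
    (f g : D →ₗ[R] D) (hfg : ∀ x, f x + g x = x) :
    Function.Bijective f ∨ Function.Bijective g := by
  rcases fitting hD f with ⟨k, -, hk⟩ | h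
  · right
    have h1 : IsNilpotent (f : Module.End R D) := ⟨k, LinearMap.ext hk⟩
    have h2 : (g : Module.End R D) = 1 - f := by
      refine LinearMap.ext fun x => ?_
      rw [LinearMap.sub_apply, Module.End.one_apply]
      exact eq_sub_of_add_eq (by rw [add_comm]; exact hfg x)
    have h3 : IsUnit (g : Module.End R D) := by
      rw [h2]
      exact h1.isUnit_one_sub
    exact (Module.End.isUnit_iff _).1 h3
  · left; exact h

theorem Retr.of_bijective (u : D →ₗ[R] A) (v : A →ₗ[R] D) (h : Function.Bijective (v ∘ₗ u)) :
    Retr R D A := by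
  let e := LinearEquiv.ofBijective (v ∘ₗ u) h
  refine ⟨u, e.symm.toLinearMap ∘ₗ v, fun x => ?_⟩
  change e.symm (v (u x)) = x
  exact e.symm_apply_apply x

/-- exchange -/
theorem Retr.or [IsArtinian R D] [IsNoetherian R D] (hD : Indecomposable R D)
    (h : Retr R D (A × A')) : Retr R D A ∨ Retr R D A' := by
  obtain ⟨i, r, hir⟩ := h
  have key := bijective_or hD ((r ∘ₗ LinearMap.inl R A A') ∘ₗ (LinearMap.fst R A A' ∘ₗ i))
    ((r ∘ₗ LinearMap.inr R A A') ∘ₗ (LinearMap.snd R A A' ∘ₗ i)) (fun x => by
      change r ((i x).1, 0) + r (0, (i x).2) = x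
      rw [← map_add]
      simp [hir])
  rcases key with h | h
  · exact Or.inl (Retr.of_bijective _ _ h)
  · exact Or.inr (Retr.of_bijective _ _ h)

theorem Retr.of_pi [IsArtinian R D] [IsNoetherian R D] (hD : Indecomposable R D) (n : ℕ)
    (h : Retr R D (Fin n → A)) : Retr R D A := by
  induction n with
  | zero =>
    exfalso
    obtain ⟨i, r, hir⟩ := h
    have := hD.1
    obtain ⟨x, hx⟩ := exists_ne (0 : D)
    apply hx
    rw [← hir x, Subsingleton.elim (i x) 0, map_zero]
  | succ n ih =>
    have h2 : Retr R D (A × (Fin n → A)) :=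
      h.trans (Retr.of_equiv (Fin.consLinearEquiv R (fun _ : Fin (n + 1) => A)).symm)
    rcases h2.or hD with h3 | h3
    · exact h3
    · exact ih h3

/-- a nonzero retract of an indecomposable module is isomorphic to it -/
theorem Retr.equiv (hY : Indecomposable R A) (hD : Nontrivial D) (h : Retr R D A) :
    Nonempty (D ≃ₗ[R] A) := by
  obtain ⟨i, r, hir⟩ := h
  rcases (indecomposable_iff.1 hY).2 (i ∘ₗ r) (fun x => by
    change i (r (i (r x))) = i (r x)
    rw [hir]) with h | h
  · exfalso
    obtain ⟨x, hx⟩ := exists_ne (0 : D)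
    apply hx
    have := congrArg r (LinearMap.congr_fun h (i x))
    change r (i (r (i x))) = r 0 at this
    rwa [hir, hir, map_zero] at this
  · exact ⟨LinearEquiv.ofLinearMap i r h (LinearMap.ext hir)⟩

theorem Retr.projective (h : Retr R D A) (hA : Module.Projective R A) : Module.Projective R D := by
  obtain ⟨i, r, hir⟩ := h
  exact Module.Projective.of_split i r (LinearMap.ext hir)

theorem Retr.finite (h : Retr R D A) (hA : Module.Finite R A) : Module.Finite R D := by
  obtain ⟨i, r, hir⟩ := h
  exact Module.Finite.of_surjective r (fun x => ⟨i x, hir x⟩)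

/-- a finite projective module is a retract of a free module -/
theorem retr_free [Module.Finite R D] (hD : Module.Projective R D) :
    ∃ n : ℕ, Retr R D (Fin n → R) := by
  obtain ⟨n, π, hπ⟩ := Module.Finite.exists_fin' R D
  obtain ⟨i, hi⟩ := Module.projective_lifting_property π LinearMap.id hπ
  exact ⟨n, i, π, fun x => LinearMap.congr_fun hi x⟩

theorem retr_self [IsArtinian R D] [IsNoetherian R D] [Module.Finite R D]
    (hD : Indecomposable R D) (hp : Module.Projective R D) : Retr R D R := by
  obtain ⟨n, h⟩ := retr_free hp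
  exact h.of_pi hD n

/-- existence of a non-projective indecomposable summand -/
theorem exists_nonprojective [IsArtinian R N] (hN : ¬ Module.Projective R N) :
    ∃ p : IndSummand R N, ¬ Module.Projective R p.1 := by
  let S : Set (Submodule R N) := {p | (∃ q, IsCompl p q) ∧ ¬ Module.Projective R p}
  have hS : S.Nonempty := by
    refine ⟨⊤, ⟨⊥, isCompl_top_bot⟩, fun h => hN ?_⟩
    exact Module.Projective.of_equiv' (Submodule.topEquiv)
  obtain ⟨p, ⟨⟨q, hpq⟩, hp⟩, hmin⟩ := IsArtinian.set_has_minimal S hS
  -- submodules of `p` with complements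
  have key : ∀ a b : Submodule R p, IsCompl a b → a ≠ ⊤ → Module.Projective R a := by
    intro a b hab ha
    by_contra hnp
    have hlt : a.map p.subtype < p := by
      refine lt_of_le_of_ne (Submodule.map_subtype_le p a) fun h => ha ?_
      rw [eq_top_iff]
      rintro ⟨x, hx⟩ _
      rw [← h] at hx
      obtain ⟨y, hy, hyx⟩ := hx
      have : y = ⟨x, by rw [← h]; exact ⟨y, hy, hyx⟩⟩ := Subtype.ext hyx
      rw [← this]
      exact hy
    refine hmin (a.map p.subtype) ⟨⟨b.map p.subtype ⊔ q, ?_⟩, fun h => hnp ?_⟩ hlt
    · rw [isCompl_iff, disjoint_iff, codisjoint_iff]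
      constructor
      · rw [eq_bot_iff]
        rintro x ⟨⟨y, hy, rfl⟩, hx2⟩
        rw [SetLike.mem_coe, Submodule.mem_sup] at hx2
        obtain ⟨_, ⟨z, hz, rfl⟩, w, hw, hsum⟩ := hx2
        have hw2 : w ∈ p := by
          have : w = (y : N) - z := by
            rw [eq_sub_iff_add_eq, add_comm]
            exact hsum
          rw [this]
          exact p.sub_mem y.2 z.2
        have hw0 : w = 0 := by
          have : w ∈ p ⊓ q := ⟨hw2, hw⟩
          rw [hpq.disjoint.eq_bot] at this
          simpa using this
        have hyz : y = z := by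
          apply Subtype.ext
          rw [hw0, add_zero] at hsum
          exact hsum.symm
        have : y ∈ a ⊓ b := ⟨hy, hyz ▸ hz⟩
        rw [hab.disjoint.eq_bot, Submodule.mem_bot] at this
        rw [this, Submodule.mem_bot, map_zero]
      · rw [← sup_assoc, ← Submodule.map_sup, hab.codisjoint.eq_top, Submodule.map_top,
          Submodule.range_subtype, hpq.codisjoint.eq_top]
    · exact Module.Projective.of_equiv' (Submodule.equivMapOfInjective p.subtype
        (Submodule.injective_subtype p) a).symm
  refine ⟨⟨p, ⟨?_, ?_⟩, q, hpq⟩, hp⟩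
  · by_contra hnt
    rw [not_nontrivial_iff_subsingleton] at hnt
    exact hp inferInstance
  · intro a b hab
    by_contra hcon
    push Not at hcon
    have ha : a ≠ ⊤ := fun h => hcon.2 (by
      have := hab.disjoint.eq_bot
      rwa [h, top_inf_eq] at this)
    have hb : b ≠ ⊤ := fun h => hcon.1 (by
      have := hab.disjoint.eq_bot
      rwa [h, inf_top_eq] at this)
    have h1 := key a b hab ha
    have h2 := key b a hab.symm hb
    exact hp (Module.Projective.of_equiv' (Submodule.prodEquivOfIsCompl a b hab))

end exchange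

end Pool.Agent.H381.NK
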