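import Pool.Agent.H381.NK.Omega

/-!
# Counting indecomposable summands of a syzygy over a self-injective ring
-/

set_option autoImplicit false

namespace Pool.Agent.H381.NK

section syz

variable {R : Type} [Ring R] {X : Type} [AddCommGroup X] [Module R X]
  {W : Type} [AddCommGroup W] [Module R W] {m : ℕ}

/-- an endomorphism of the syzygy `W` induces compatible endomorphisms of `R^m` and `X` -/
theorem exists_induced (hinj : Module.Injective R (Fin m → R)) {j : W →ₗ[R] (Fin m → R)}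
    {ϖ : (Fin m → R) →ₗ[R] X} (hj : Function.Injective j) (hϖ : Function.Surjective ϖ)
    (h0 : ∀ w, ϖ (j w) = 0) (hex : ∀ v, ϖ v = 0 → ∃ w, j w = v) (e : Module.End R W) :
    ∃ (E : Module.End R (Fin m → R)) (E' : Module.End R X), (∀ w, E (j w) = j (e w)) ∧
      ∀ v, ϖ (E v) = E' (ϖ v) := by
  obtain ⟨E, hE⟩ := hinj.out j hj (j ∘ₗ e)
  have hker : LinearMap.ker ϖ ≤ LinearMap.ker (ϖ ∘ₗ E) := by
    intro v hv
    obtain ⟨w, rfl⟩ := hex v hv
    rw [LinearMap.mem_ker, LinearMap.comp_apply, hE]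
    exact h0 _
  let E' : X →ₗ[R] X := (Submodule.liftQ _ (ϖ ∘ₗ E) hker) ∘ₗ
    (ϖ.quotKerEquivOfSurjective hϖ).symm.toLinearMap
  refine ⟨E, E', hE, fun v => ?_⟩
  have h1 : (ϖ.quotKerEquivOfSurjective hϖ).symm (ϖ v) = Submodule.Quotient.mk v := by
    rw [LinearEquiv.symm_apply_eq]
    rfl
  change ϖ (E v) = (Submodule.liftQ _ (ϖ ∘ₗ E) hker) ((ϖ.quotKerEquivOfSurjective hϖ).symm (ϖ v))
  rw [h1]
  rfl

theorem pow_compat (ϖ : (Fin m → R) →ₗ[R] X) (E : Module.End R (Fin m → R)) (E' : Module.End R X)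
    (h : ∀ v, ϖ (E v) = E' (ϖ v)) (l : ℕ) : ∀ v, ϖ ((E ^ l : Module.End R (Fin m → R)) v) =
      (E' ^ l : Module.End R X) (ϖ v) := by
  induction l with
  | zero => intro v; rfl
  | succ l ih =>
    intro v
    rw [pow_succ', pow_succ', Module.End.mul_apply, Module.End.mul_apply, h, ih]

theorem retr_unique (hinj : Module.Injective R (Fin m → R)) {j : W →ₗ[R] (Fin m → R)}
    {ϖ : (Fin m → R) →ₗ[R] X} (hj : Function.Injective j) (hϖ : Function.Surjective ϖ)
    (h0 : ∀ w, ϖ (j w) = 0) (hex : ∀ v, ϖ v = 0 → ∃ w, j w = v)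
    [IsArtinian R X] [IsNoetherian R X] (hX : Indecomposable R X) (hXp : ¬ Module.Projective R X)
    {D₁ D₂ : Type} [AddCommGroup D₁] [Module R D₁] [AddCommGroup D₂] [Module R D₂]
    [IsArtinian R D₁] [IsNoetherian R D₁]
    (hD₁ : Indecomposable R D₁) (hD₂ : Indecomposable R D₂)
    (hp₁ : ¬ Module.Projective R D₁) (hp₂ : ¬ Module.Projective R D₂)
    (h₁ : Retr R D₁ W) (h₂ : Retr R D₂ W) : Nonempty (D₁ ≃ₗ[R] D₂) := by
  obtain ⟨i₁, r₁, hir₁⟩ := h₁
  obtain ⟨i₂, r₂, hir₂⟩ := h₂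
  -- the induced endomorphism is bijective
  have key : ∀ {D : Type} [AddCommGroup D] [Module R D] (hp : ¬ Module.Projective R D)
      (i : D →ₗ[R] W) (r : W →ₗ[R] D) (hir : ∀ x, r (i x) = x)
      (E : Module.End R (Fin m → R)) (E' : Module.End R X) (hE : ∀ w, E (j w) = j (i (r w)))
      (hE' : ∀ v, ϖ (E v) = E' (ϖ v)), IsUnit E' := by
    intro D _ _ hp i r hir E E' hE hE'
    rcases fitting hX E' with ⟨k, hk1, hk⟩ | h
    · exfalso
      apply hp
      have hpow : ∀ (l : ℕ) v, ϖ ((E ^ l : Module.End R (Fin m → R)) v) =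
          (E' ^ l : Module.End R X) (ϖ v) := by
        intro l
        induction l with
        | zero => intro v; rfl
        | succ l ih =>
          intro v
          rw [pow_succ', pow_succ', Module.End.mul_apply, Module.End.mul_apply, hE', ih]
      have hpow2 : ∀ (l : ℕ) w, (E ^ (l + 1) : Module.End R (Fin m → R)) (j w) = j (i (r w)) := by
        intro l
        induction l with
        | zero => intro w; rw [zero_add, pow_one, hE]
        | succ l ih =>
          intro w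
          rw [pow_succ', Module.End.mul_apply, ih, hE, hir]
      obtain ⟨l, rfl⟩ : ∃ l, k = l + 1 := ⟨k - 1, by omega⟩
      have hrange : ∀ v, (E ^ (l + 1) : Module.End R (Fin m → R)) v ∈ LinearMap.range j := by
        intro v
        obtain ⟨w, hw⟩ := hex ((E ^ (l + 1) : Module.End R (Fin m → R)) v) (by rw [hpow, hk])
        exact ⟨w, hw⟩
      let h : (Fin m → R) →ₗ[R] W := (LinearEquiv.ofInjective j hj).symm.toLinearMap ∘ₗ
        (LinearMap.codRestrict (LinearMap.range j) (E ^ (l + 1) : Module.End R (Fin m → R)) hrange)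
      have hh : ∀ v, j (h v) = (E ^ (l + 1) : Module.End R (Fin m → R)) v := by
        intro v
        have := (LinearEquiv.ofInjective j hj).apply_symm_apply
          ((LinearMap.codRestrict (LinearMap.range j) (E ^ (l + 1) : Module.End R (Fin m → R))
            hrange) v)
        exact congrArg Subtype.val this
      refine Retr.projective (A := Fin m → R) ⟨j ∘ₗ i, r ∘ₗ h, fun x => ?_⟩ inferInstance
      change r (h (j (i x))) = x
      have h1 : h (j (i x)) = i x := by
        apply hj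
        rw [hh, hpow2, hir]
      rw [h1, hir]
    · exact (Module.End.isUnit_iff _).2 h
  obtain ⟨E₁, E₁', hE₁, hE₁'⟩ := exists_induced hinj hj hϖ h0 hex (i₁ ∘ₗ r₁)
  obtain ⟨E₂, E₂', hE₂, hE₂'⟩ := exists_induced hinj hj hϖ h0 hex (i₂ ∘ₗ r₂)
  have hu₁ := key hp₁ i₁ r₁ hir₁ E₁ E₁' hE₁ hE₁'
  have hu₂ := key hp₂ i₂ r₂ hir₂ E₂ E₂' hE₂ hE₂'
  have hu : IsUnit (E₁' * E₂' * E₁') := (hu₁.mul hu₂).mul hu₁
  -- the composite `D₁ → D₂ → D₁`
  rcases fitting hD₁ ((r₁ ∘ₗ i₂) ∘ₗ (r₂ ∘ₗ i₁)) with ⟨k, hk1, hk⟩ | h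
  · exfalso
    apply hXp
    have h1 : ∀ w, (E₁ * E₂ * E₁ : Module.End R (Fin m → R)) (j w) =
        j (i₁ (((r₁ ∘ₗ i₂) ∘ₗ (r₂ ∘ₗ i₁)) (r₁ w))) := by
      intro w
      change E₁ (E₂ (E₁ (j w))) = _
      rw [hE₁, hE₂, hE₁]
      rfl
    have h2 : ∀ (l : ℕ) w, ((E₁ * E₂ * E₁) ^ (l + 1) : Module.End R (Fin m → R)) (j w) =
        j (i₁ ((((r₁ ∘ₗ i₂) ∘ₗ (r₂ ∘ₗ i₁)) ^ (l + 1) : Module.End R D₁) (r₁ w))) := by
      intro l
      induction l with
      | zero => intro w; rw [zero_add, pow_one, pow_one, h1]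
      | succ l ih =>
        intro w
        rw [pow_succ', Module.End.mul_apply, ih, h1, hir₁, pow_succ' _ (l + 1),
          Module.End.mul_apply]
    obtain ⟨l, rfl⟩ : ∃ l, k = l + 1 := ⟨k - 1, by omega⟩
    set E := ((E₁ * E₂ * E₁) ^ (l + 1) : Module.End R (Fin m → R)) with hEdef
    set E' := ((E₁' * E₂' * E₁') ^ (l + 1) : Module.End R X) with hE'def
    have hEE' : ∀ v, ϖ (E v) = E' (ϖ v) := by
      have h3 : ∀ v, ϖ ((E₁ * E₂ * E₁ : Module.End R (Fin m → R)) v) =
          (E₁' * E₂' * E₁' : Module.End R X) (ϖ v) := by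
        intro v
        change ϖ (E₁ (E₂ (E₁ v))) = E₁' (E₂' (E₁' (ϖ v)))
        rw [hE₁', hE₂', hE₁']
      exact pow_compat ϖ _ _ h3 (l + 1)
    have hE0 : ∀ w, E (j w) = 0 := by
      intro w
      rw [hEdef, h2, hk, map_zero, map_zero]
    have hker : LinearMap.ker ϖ ≤ LinearMap.ker E := by
      intro v hv
      obtain ⟨w, rfl⟩ := hex v hv
      exact hE0 w
    let s : X →ₗ[R] (Fin m → R) := (Submodule.liftQ _ E hker) ∘ₗ
      (ϖ.quotKerEquivOfSurjective hϖ).symm.toLinearMap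
    have hs : ∀ v, s (ϖ v) = E v := by
      intro v
      have h1 : (ϖ.quotKerEquivOfSurjective hϖ).symm (ϖ v) = Submodule.Quotient.mk v := by
        rw [LinearEquiv.symm_apply_eq]
        rfl
      change (Submodule.liftQ _ E hker) ((ϖ.quotKerEquivOfSurjective hϖ).symm (ϖ v)) = E v
      rw [h1]
      rfl
    have hϖs : ∀ x, ϖ (s x) = E' x := by
      intro x
      obtain ⟨v, rfl⟩ := hϖ x
      rw [hs, hEE']
    have hbij : Function.Bijective (ϖ ∘ₗ s) := by
      have : (ϖ ∘ₗ s) = E' := LinearMap.ext hϖs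
      rw [this]
      exact (Module.End.isUnit_iff _).1 (hu.pow _)
    exact (Retr.of_bijective s ϖ hbij).projective inferInstance
  · exact (Retr.of_bijective _ _ h).equiv hD₂ hD₁.1

theorem numInd_syzygy [IsArtinianRing R] [IsNoetherianRing R]
    (hinj : Module.Injective R (Fin m → R)) {j : W →ₗ[R] (Fin m → R)}
    {ϖ : (Fin m → R) →ₗ[R] X} (hj : Function.Injective j) (hϖ : Function.Surjective ϖ)
    (h0 : ∀ w, ϖ (j w) = 0) (hex : ∀ v, ϖ v = 0 → ∃ w, j w = v)
    [Module.Finite R X] [Module.Finite R W] (hX : Indecomposable R X)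
    (hXp : ¬ Module.Projective R X) (hWp : ¬ Module.Projective R W) (hRW : Retr R R W) :
    numInd R W = numInd R (R × X) := by
  classical
  have hfin : ∀ {D : Type} [AddCommGroup D] [Module R D], Retr R D W → Module.Finite R D :=
    fun {D} _ _ h => h.finite inferInstance
  have hXR : Retr R X (R × X) := ⟨LinearMap.inr R R X, LinearMap.snd R R X, fun _ => rfl⟩
  have hRR : Retr R R (R × X) := ⟨LinearMap.inl R R X, LinearMap.fst R R X, fun _ => rfl⟩
  obtain ⟨qX, ⟨eX⟩⟩ := exists_summand hX hXR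
  have hproj : ∀ p : IndSummand R W, Module.Projective R p.1 → Retr R p.1 R := by
    intro p hp
    have := hfin p.retr
    exact retr_self p.2.1 hp
  have hq : ∀ p : IndSummand R W, ∃ q : IndSummand R (R × X),
      (Module.Projective R p.1 → Nonempty (q.1 ≃ₗ[R] p.1)) ∧
      (¬ Module.Projective R p.1 → Nonempty (q.1 ≃ₗ[R] X)) := by
    intro p
    by_cases hp : Module.Projective R p.1
    · obtain ⟨q, hq⟩ := exists_summand p.2.1 ((hproj p hp).trans hRR)
      exact ⟨q, fun _ => hq, fun h => absurd hp h⟩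
    · exact ⟨qX, fun h => absurd h hp, fun _ => ⟨eX⟩⟩
  choose f hf1 hf2 using hq
  have hfp : ∀ p, Module.Projective R (f p).1 ↔ Module.Projective R p.1 := by
    intro p
    constructor
    · intro h
      by_contra hp
      obtain ⟨e⟩ := hf2 p hp
      exact hXp (Module.Projective.of_equiv' e)
    · intro h
      obtain ⟨e⟩ := hf1 p h
      exact Module.Projective.of_equiv' e.symm
  refine mk_quotient_eq _ _ f ?_ ?_
  · intro p p'
    constructor
    · rintro ⟨e⟩
      by_cases hp : Module.Projective R p.1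
      · have hp' : Module.Projective R p'.1 := Module.Projective.of_equiv' e
        obtain ⟨e1⟩ := hf1 p hp
        obtain ⟨e2⟩ := hf1 p' hp'
        exact ⟨(e1.trans e).trans e2.symm⟩
      · have hp' : ¬ Module.Projective R p'.1 := fun h => hp (Module.Projective.of_equiv' e.symm)
        obtain ⟨e1⟩ := hf2 p hp
        obtain ⟨e2⟩ := hf2 p' hp'
        exact ⟨e1.trans e2.symm⟩
    · rintro ⟨e⟩
      by_cases hp : Module.Projective R p.1
      · have hp' : Module.Projective R p'.1 := by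
          rw [← hfp]
          have := (hfp p).2 hp
          exact Module.Projective.of_equiv' e
        obtain ⟨e1⟩ := hf1 p hp
        obtain ⟨e2⟩ := hf1 p' hp'
        exact ⟨(e1.symm.trans e).trans e2⟩
      · have hp' : ¬ Module.Projective R p'.1 := fun h => hp (by
          rw [← hfp]
          have := (hfp p').2 h
          exact Module.Projective.of_equiv' e.symm)
        have := hfin p.retr
        exact retr_unique hinj hj hϖ h0 hex hX hXp p.2.1 p'.2.1 hp hp' p.retr p'.retr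
  · intro q
    have hqf : Module.Finite R q.1 := q.retr.finite inferInstance
    rcases q.retr.or q.2.1 with h | h
    · have hqp : Module.Projective R q.1 := h.projective inferInstance
      obtain ⟨p, ⟨e⟩⟩ := exists_summand q.2.1 (h.trans hRW)
      have hp : Module.Projective R p.1 := Module.Projective.of_equiv' e.symm
      obtain ⟨e1⟩ := hf1 p hp
      exact ⟨p, ⟨e1.trans e⟩⟩
    · obtain ⟨e⟩ := h.equiv hX q.2.1.1
      obtain ⟨p, hp⟩ := exists_nonprojective hWp
      obtain ⟨e1⟩ := hf2 p hp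
      exact ⟨p, ⟨e1.trans e.symm⟩⟩

/-- the syzygy of a non-projective module over a self-injective ring is not projective -/
theorem syzygy_nonprojective (hinj : ∀ n, Module.Injective R (Fin n → R))
    {j : W →ₗ[R] (Fin m → R)}
    {ϖ : (Fin m → R) →ₗ[R] X} (hj : Function.Injective j) (hϖ : Function.Surjective ϖ)
    (h0 : ∀ w, ϖ (j w) = 0) (hex : ∀ v, ϖ v = 0 → ∃ w, j w = v) [Module.Finite R W]
    (hXp : ¬ Module.Projective R X) : ¬ Module.Projective R W := by
  intro hW
  apply hXp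
  obtain ⟨n, i, r, hir⟩ := retr_free hW
  obtain ⟨E, hE⟩ := (hinj n).out j hj i
  -- `r ∘ E` is a retraction of `j`
  let ρ : (Fin m → R) →ₗ[R] W := r ∘ₗ E
  have hρ : ∀ w, ρ (j w) = w := fun w => by
    change r (E (j w)) = w
    rw [hE, hir]
  have hker : LinearMap.ker ϖ ≤ LinearMap.ker (LinearMap.id - j ∘ₗ ρ) := by
    intro v hv
    obtain ⟨w, rfl⟩ := hex v hv
    rw [LinearMap.mem_ker, LinearMap.sub_apply, LinearMap.comp_apply, hρ, LinearMap.id_apply,
      sub_self]
  let s : X →ₗ[R] (Fin m → R) := (Submodule.liftQ _ (LinearMap.id - j ∘ₗ ρ) hker) ∘ₗ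
      (ϖ.quotKerEquivOfSurjective hϖ).symm.toLinearMap
  refine Retr.projective (A := Fin m → R) ⟨s, ϖ, fun x => ?_⟩ inferInstance
  obtain ⟨v, rfl⟩ := hϖ x
  have h1 : (ϖ.quotKerEquivOfSurjective hϖ).symm (ϖ v) = Submodule.Quotient.mk v := by
    rw [LinearEquiv.symm_apply_eq]
    rfl
  change ϖ ((Submodule.liftQ _ (LinearMap.id - j ∘ₗ ρ) hker)
    ((ϖ.quotKerEquivOfSurjective hϖ).symm (ϖ v))) = ϖ v
  rw [h1]
  change ϖ (v - j (ρ v)) = ϖ v
  rw [map_sub, h0, sub_zero]

end syz

end Pool.Agent.H381.NK
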