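import Pool.Agent.H190.NK.Main
import Pool.Agent.H381.NK.Omega2

/-!
# Modules over a split extension of `End_T (T × X)`, `T` symmetric
-/

set_option autoImplicit false
set_option linter.unusedSectionVars false

open CategoryTheory CategoryTheory.Abelian
open Pool.Agent.H190.NK

namespace Pool.Agent.H381.NK

variable {K : Type} [Field K] {T : Type} [Ring T] [Algebra K T]
  {X : Type} [AddCommGroup X] [Module T X] [Module K X] [IsScalarTower K T X]

/-- the projection of `T × X` to `T` -/
def ee (T X : Type) [Ring T] [AddCommGroup X] [Module T X] : Module.End T (T × X) :=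
  LinearMap.inl T T X ∘ₗ LinearMap.fst T T X

variable {B : Type} [Ring B] [Algebra K B] [Module B (T × X)] [SMulCommClass T B (T × X)]

/-- `B` is a split extension of `End_T (T × X)` by a square-zero ideal `L`, the annihilator of
`T × X`, with `ee L = L ee = 0`. -/
structure Pk (ι : Module.End T (T × X) →ₐ[K] B) : Prop where
  smul : ∀ (c : Module.End T (T × X)) (m : T × X), ι c • m = c m
  sq : ∀ b b' : B, (∀ m : T × X, b • m = 0) → (∀ m : T × X, b' • m = 0) → b * b' = 0
  left : ∀ b : B, (∀ m : T × X, b • m = 0) → ι (ee T X) * b = 0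
  right : ∀ b : B, (∀ m : T × X, b • m = 0) → b * ι (ee T X) = 0

/-- the action of `b` -/
def act (b : B) : Module.End T (T × X) where
  toFun m := b • m
  map_add' := smul_add b
  map_smul' t m := (smul_comm t b m).symm

@[simp] theorem act_apply (b : B) (m : T × X) : act b m = b • m := rfl

/-- the action as a ring homomorphism -/
def actHom : B →+* Module.End T (T × X) where
  toFun := act
  map_one' := LinearMap.ext fun m => one_smul B m
  map_mul' b b' := LinearMap.ext fun m => mul_smul b b' m
  map_zero' := LinearMap.ext fun m => zero_smul B m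
  map_add' b b' := LinearMap.ext fun m => add_smul b b' m

variable {ι : Module.End T (T × X) →ₐ[K] B}

theorem Pk.act_ι (h : Pk ι) (c : Module.End T (T × X)) : act (ι c) = c := LinearMap.ext (h.smul c)

theorem Pk.dec (h : Pk ι) (b : B) : ∃ l : B, (∀ m : T × X, l • m = 0) ∧ b = ι (act b) + l :=
  ⟨b - ι (act b), fun m => by rw [sub_smul, h.smul, act_apply, sub_self], by abel⟩

theorem Pk.algebraMap_smul (h : Pk ι) (c : K) (m : T × X) : algebraMap K B c • m = c • m := by
  have h1 : algebraMap K B c = ι (algebraMap K (Module.End T (T × X)) c) := (ι.commutes c).symm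
  rw [h1, h.smul]
  rfl

/-- multiplication by `b` on the right -/
theorem Pk.mul_right (h : Pk ι) (b : B) (s : (T × X) →ₗ[T] T) :
    ι (LinearMap.inl T T X ∘ₗ s) * b = ι (LinearMap.inl T T X ∘ₗ s ∘ₗ act b) := by
  obtain ⟨l, hl, hb⟩ := h.dec b
  have h1 : (LinearMap.inl T T X ∘ₗ s : Module.End T (T × X)) =
      ee T X * (LinearMap.inl T T X ∘ₗ s : Module.End T (T × X)) := rfl
  have h2 : ι (LinearMap.inl T T X ∘ₗ s) * l = 0 := by
    rw [h1, map_mul, mul_assoc]
    apply h.left
    intro m
    rw [mul_smul, hl, smul_zero]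
  conv_lhs => rw [hb]
  rw [mul_add, h2, add_zero, ← map_mul]
  rfl

/-- multiplication by `b` on the left -/
theorem Pk.mul_left (h : Pk ι) (b : B) (m : T × X) :
    b * ι ((LinearMap.fst T T X).smulRight m) = ι ((LinearMap.fst T T X).smulRight (b • m)) := by
  obtain ⟨l, hl, hb⟩ := h.dec b
  have h1 : ((LinearMap.fst T T X).smulRight m : Module.End T (T × X)) =
      ((LinearMap.fst T T X).smulRight m : Module.End T (T × X)) * ee T X := rfl
  have h2 : l * ι ((LinearMap.fst T T X).smulRight m) = 0 := by
    rw [h1, map_mul, ← mul_assoc]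
    apply h.right
    intro m'
    rw [mul_smul, hl]
  conv_lhs => rw [hb]
  rw [add_mul, h2, add_zero, ← map_mul]
  congr 1
  refine LinearMap.ext fun z => ?_
  exact (smul_comm z.1 b m).symm

/-- `T × X` is a projective `B`-module -/
theorem Pk.projective (h : Pk ι) : Module.Projective B (T × X) := by
  let i : (T × X) →ₗ[B] B :=
    { toFun := fun m => ι ((LinearMap.fst T T X).smulRight m)
      map_add' := fun m m' => by
        rw [← map_add]
        congr 1
        refine LinearMap.ext fun z => ?_
        exact smul_add z.1 m m'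
      map_smul' := fun b m => by
        rw [RingHom.id_apply, smul_eq_mul, h.mul_left] }
  refine Module.Projective.of_split i (LinearMap.toSpanSingleton B (T × X) (1, 0)) ?_
  refine LinearMap.ext fun m => ?_
  change ι ((LinearMap.fst T T X).smulRight m) • ((1, 0) : T × X) = m
  rw [h.smul]
  change (1 : T) • m = m
  exact one_smul T m

/-- `T × X` is an injective `B`-module -/
theorem Pk.injective (h : Pk ι) (y : Sy K T) [Module.Finite K T] [Module.Finite K X] :
    Module.Injective B (T × X) := by
  refine ⟨fun P Q _ _ _ _ f hf g => ?_⟩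
  let : Module K P := Module.compHom P (algebraMap K B)
  let : Module K Q := Module.compHom Q (algebraMap K B)
  have hP : ∀ (c : K) (p : P), c • p = algebraMap K B c • p := fun _ _ => rfl
  have hQ : ∀ (c : K) (p : Q), c • p = algebraMap K B c • p := fun _ _ => rfl
  let fK : P →ₗ[K] Q :=
    { toFun := f
      map_add' := map_add f
      map_smul' := fun c p => by rw [hP, map_smul, RingHom.id_apply, hQ] }
  let l₀ : P →ₗ[K] K :=
    { toFun := fun p => y.lam (g p).1
      map_add' := fun p p' => by rw [map_add, Prod.fst_add, map_add]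
      map_smul' := fun c p => by
        rw [hP, map_smul, h.algebraMap_smul, Prod.smul_fst, map_smul, RingHom.id_apply] }
  obtain ⟨l, hl⟩ := LinearMap.dualMap_surjective_of_injective (f := fK) (by exact hf) l₀
  have hl' : ∀ p : P, l (f p) = y.lam (g p).1 := fun p => LinearMap.congr_fun hl p
  let ξ : Q → Module.Dual K ((T × X) →ₗ[T] T) := fun q =>
    { toFun := fun s => l (ι (LinearMap.inl T T X ∘ₗ s) • q)
      map_add' := fun s s' => by
        rw [← map_add l, ← add_smul, ← map_add ι]
        congr 3
        refine LinearMap.ext fun z => ?_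
        exact map_add (LinearMap.inl T T X) (s z) (s' z)
      map_smul' := fun c s => by
        rw [RingHom.id_apply, ← map_smul l, hQ, smul_smul]
        congr 2
        rw [← Algebra.smul_def, ← map_smul ι]
        congr 1
        refine LinearMap.ext fun z => ?_
        change ((c • s z, (0 : X)) : T × X) = c • ((s z, (0 : X)) : T × X)
        rw [Prod.smul_mk, smul_zero] }
  have hξ : ∀ q s, ξ q s = l (ι (LinearMap.inl T T X ∘ₗ s) • q) := fun _ _ => rfl
  let hh : Q →ₗ[B] (T × X) :=
    { toFun := fun q => κ y (ξ q)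
      map_add' := fun q q' => y.sep fun s => by
        rw [κ_spec, hξ, smul_add, map_add, map_add, map_add, κ_spec, κ_spec, hξ, hξ]
      map_smul' := fun b q => y.sep fun s => by
        rw [κ_spec, hξ, smul_smul, h.mul_right, RingHom.id_apply]
        have h1 : s (b • κ y (ξ q)) = (s ∘ₗ act b) (κ y (ξ q)) := rfl
        rw [h1, κ_spec, hξ] }
  refine ⟨hh, fun p => y.sep fun s => ?_⟩
  change y.lam (s (κ y (ξ (f p)))) = _
  rw [κ_spec, hξ, ← map_smul, hl', map_smul, h.smul]
  rfl

/-- Modules killed by `ee` have no maps to `T × X`. -/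
theorem Pk.hom_zero (h : Pk ι) (y : Sy K T) {Q : Type} [AddCommGroup Q] [Module B Q]
    (hQ : ∀ q : Q, ι (ee T X) • q = 0) (f : Q →ₗ[B] (T × X)) : f = 0 := by
  refine LinearMap.ext fun q => y.sep fun s => ?_
  have h1 : ι (LinearMap.inl T T X ∘ₗ s) • q = 0 := by
    have h1 : (LinearMap.inl T T X ∘ₗ s : Module.End T (T × X)) =
      ee T X * (LinearMap.inl T T X ∘ₗ s : Module.End T (T × X)) := rfl
    rw [h1, map_mul, mul_smul, hQ]
  have h2 : ι (LinearMap.inl T T X ∘ₗ s) • f q = 0 := by rw [← map_smul, h1, map_zero]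
  rw [h.smul] at h2
  have h3 : s (f q) = 0 := congrArg Prod.fst h2
  rw [h3, LinearMap.zero_apply, map_zero, map_zero, map_zero]

section functor

variable {N : Type} [AddCommGroup N] [Module T N] {N' : Type} [AddCommGroup N'] [Module T N']
  {N'' : Type} [AddCommGroup N''] [Module T N'']

/-- Modules killed by `ee` have no maps to `Hom_T(N, T × X)`. -/
theorem Pk.hom_zero' (h : Pk ι) (y : Sy K T) {Q : Type} [AddCommGroup Q] [Module B Q]
    (hQ : ∀ q : Q, ι (ee T X) • q = 0) (f : Q →ₗ[B] (N →ₗ[T] (T × X))) : f = 0 := by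
  refine LinearMap.ext fun q => LinearMap.ext fun n => ?_
  let f' : Q →ₗ[B] (T × X) :=
    { toFun := fun q => f q n
      map_add' := fun q q' => by rw [map_add, LinearMap.add_apply]
      map_smul' := fun b q => by rw [map_smul, LinearMap.smul_apply, RingHom.id_apply] }
  exact LinearMap.congr_fun (h.hom_zero y hQ f') q

variable (B X) in
/-- the functor `Hom_T(-, T × X)` -/
def Fm (u : N →ₗ[T] N') : (N' →ₗ[T] (T × X)) →ₗ[B] (N →ₗ[T] (T × X)) where
  toFun φ := φ ∘ₗ u
  map_add' _ _ := rfl
  map_smul' _ _ := rfl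

@[simp] theorem Fm_apply (u : N →ₗ[T] N') (φ : N' →ₗ[T] (T × X)) : Fm X B u φ = φ ∘ₗ u := rfl

variable (B X) in
/-- `Hom_T(T^m, T × X)` is `(T × X)^m` -/
def freeEquiv (m : ℕ) : ((Fin m → T) →ₗ[T] (T × X)) ≃ₗ[B] (Fin m → T × X) where
  toFun φ i := φ (Pi.single i 1)
  map_add' _ _ := rfl
  map_smul' _ _ := rfl
  invFun v := LinearMap.lsum T (fun _ => T) ℤ fun i => LinearMap.toSpanSingleton T (T × X) (v i)
  left_inv φ := by
    refine LinearMap.pi_ext' fun i => ?_
    ext <;> simp
  right_inv v := by
    funext i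
    simp [LinearMap.lsum_apply, Pi.single_apply]

theorem Pk.projective_free (h : Pk ι) (m : ℕ) :
    Module.Projective B ((Fin m → T) →ₗ[T] (T × X)) := by
  have := h.projective
  have : Module.Projective B (Fin m → T × X) :=
    Module.Projective.of_equiv' (DFinsupp.linearEquivFunOnFintype (R := B) (M := fun _ : Fin m => T × X))
  exact Module.Projective.of_equiv' (freeEquiv X B m).symm

theorem injective_equiv {P Q : Type} [AddCommGroup P] [Module B P] [AddCommGroup Q] [Module B Q]
    (e : P ≃ₗ[B] Q) (h : Module.Injective B P) : Module.Injective B Q := by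
  refine ⟨fun P' Q' _ _ _ _ f hf g => ?_⟩
  obtain ⟨k, hk⟩ := h.out f hf (e.symm.toLinearMap ∘ₗ g)
  refine ⟨e.toLinearMap ∘ₗ k, fun x => ?_⟩
  change e (k (f x)) = g x
  rw [hk]
  exact e.apply_symm_apply _

theorem injective_pi {P : Type} [AddCommGroup P] [Module B P] (m : ℕ)
    (h : Module.Injective B P) : Module.Injective B (Fin m → P) := by
  refine ⟨fun P' Q' _ _ _ _ f hf g => ?_⟩
  have h1 : ∀ i : Fin m, ∃ k : Q' →ₗ[B] P, ∀ x, k (f x) = ((LinearMap.proj i) ∘ₗ g) x :=
    fun i => h.out f hf _
  choose k hk using h1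
  refine ⟨LinearMap.pi k, fun x => ?_⟩
  ext i
  exact hk i x

theorem Pk.injective_free (h : Pk ι) (y : Sy K T) [Module.Finite K T] [Module.Finite K X]
    (m : ℕ) : Module.Injective B ((Fin m → T) →ₗ[T] (T × X)) :=
  injective_equiv (freeEquiv X B m).symm (injective_pi m (h.injective y))

end functor

end Pool.Agent.H381.NK
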