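import Pool.Agent.H381.NK.Count

/-!
# Indecomposable summands of modules and primitive idempotents of endomorphism rings
-/

set_option autoImplicit false

namespace Pool.Agent.H381.NK

section basic

variable {R : Type} [Ring R] {N : Type} [AddCommGroup N] [Module R N]
  {D : Type} [AddCommGroup D] [Module R D] {D' : Type} [AddCommGroup D'] [Module R D']

theorem indecomposable_iff : Indecomposable R N ↔
    Nontrivial N ∧ ∀ g : N →ₗ[R] N, (∀ x, g (g x) = g x) → g = 0 ∨ g = LinearMap.id := by
  refine and_congr_right fun _ => ⟨fun h g hg => ?_, fun h p q hpq => ?_⟩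
  · have hc : IsCompl (LinearMap.range g) (LinearMap.ker g) := by
      rw [isCompl_iff, disjoint_iff, codisjoint_iff]
      constructor
      · rw [eq_bot_iff]
        rintro x ⟨⟨y, rfl⟩, hx⟩
        change g (g y) = 0 at hx
        rw [hg] at hx
        simp [hx]
      · rw [eq_top_iff]
        intro x _
        rw [Submodule.mem_sup]
        refine ⟨g x, ⟨x, rfl⟩, x - g x, ?_, by abel⟩
        rw [LinearMap.mem_ker, map_sub, hg, sub_self]
    rcases h _ _ hc with h1 | h1
    · left
      exact LinearMap.range_eq_bot.1 h1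
    · right
      ext x
      have h2 : g x - x ∈ LinearMap.ker g := by rw [LinearMap.mem_ker, map_sub, hg, sub_self]
      rw [h1, Submodule.mem_bot] at h2
      exact sub_eq_zero.1 h2
  · rcases h (p.projection q hpq) (fun x => by
      exact LinearMap.congr_fun (Submodule.isIdempotentElem_projection hpq) x) with h1 | h1
    · left
      rw [eq_bot_iff]
      intro x hx
      have h2 := Submodule.projection_apply_of_mem_left hpq hx
      rw [h1] at h2
      simpa using h2.symm
    · right
      rw [eq_bot_iff]
      intro x hx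
      have h2 := (Submodule.projection_apply_eq_zero_iff hpq (x := x)).2 hx
      rw [h1] at h2
      simpa using h2

theorem Indecomposable.congr (e : D ≃ₗ[R] D') (h : Indecomposable R D) : Indecomposable R D' := by
  rw [indecomposable_iff] at h ⊢
  refine ⟨?_, fun g hg => ?_⟩
  · have := h.1
    exact e.injective.nontrivial
  · rcases h.2 (e.symm.toLinearMap ∘ₗ g ∘ₗ e.toLinearMap) (fun x => by simp [hg]) with h1 | h1
    · left
      ext x
      have h2 := LinearMap.congr_fun h1 (e.symm x)
      simpa using h2
    · right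
      ext x
      have h2 := LinearMap.congr_fun h1 (e.symm x)
      simpa using congrArg e h2

/-- `D` is a retract (isomorphic to a direct summand) of `N`. -/
def Retr (R : Type) [Ring R] (D N : Type) [AddCommGroup D] [Module R D] [AddCommGroup N]
    [Module R N] : Prop :=
  ∃ (i : D →ₗ[R] N) (r : N →ₗ[R] D), ∀ x, r (i x) = x

theorem Retr.refl (D : Type) [AddCommGroup D] [Module R D] : Retr R D D :=
  ⟨LinearMap.id, LinearMap.id, fun _ => rfl⟩

theorem Retr.trans (h : Retr R D D') (h' : Retr R D' N) : Retr R D N := by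
  obtain ⟨i, r, hir⟩ := h
  obtain ⟨i', r', hir'⟩ := h'
  exact ⟨i' ∘ₗ i, r ∘ₗ r', fun x => by simp [hir, hir']⟩

theorem Retr.of_equiv (e : D ≃ₗ[R] N) : Retr R D N := ⟨e, e.symm, fun x => by simp⟩

/-- retracts and primitive idempotents -/
theorem prim_iff (i : D →ₗ[R] N) (r : N →ₗ[R] D) (hir : ∀ x, r (i x) = x) :
    IsPrim (i ∘ₗ r : Module.End R N) ↔ Indecomposable R D := by
  have he : ∀ x, (i ∘ₗ r : Module.End R N) x = i (r x) := fun x => rfl
  rw [indecomposable_iff]
  constructor
  · rintro ⟨h1, h2, h3⟩
    refine ⟨?_, fun g hg => ?_⟩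
    · by_contra hD
      rw [not_nontrivial_iff_subsingleton] at hD
      apply h2
      refine LinearMap.ext fun x => ?_
      rw [he, Subsingleton.elim (r x) 0, map_zero]
      rfl
    · have key := h3 (i ∘ₗ g ∘ₗ r) (LinearMap.ext fun x => by
          change i (g (r (i (g (r x))))) = i (g (r x))
          rw [hir, hg])
        (LinearMap.ext fun x => by
          change i (r (i (g (r x)))) = i (g (r x))
          rw [hir])
        (LinearMap.ext fun x => by
          change i (g (r (i (r x)))) = i (g (r x))
          rw [hir])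
      rcases key with h | h
      · left
        ext x
        have := congrArg r (LinearMap.congr_fun h (i x))
        change r (i (g (r (i x)))) = r 0 at this
        rwa [hir, hir, map_zero] at this
      · right
        ext x
        have := congrArg r (LinearMap.congr_fun h (i x))
        change r (i (g (r (i x)))) = r (i (r (i x))) at this
        rwa [hir, hir, hir] at this
  · rintro ⟨h1, h2⟩
    refine ⟨LinearMap.ext fun x => ?_, ?_, ?_⟩
    · change i (r (i (r x))) = i (r x)
      rw [hir]
    · intro h
      obtain ⟨x, hx⟩ := exists_ne (0 : D)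
      apply hx
      have := congrArg r (LinearMap.congr_fun h (i x))
      change r (i (r (i x))) = r 0 at this
      rwa [hir, hir, map_zero] at this
    · intro g hg hg1 hg2
      have hg' : ∀ x, g (g x) = g x := fun x => LinearMap.congr_fun hg x
      have hg1' : ∀ x, i (r (g x)) = g x := fun x => LinearMap.congr_fun hg1 x
      have hg2' : ∀ x, g (i (r x)) = g x := fun x => LinearMap.congr_fun hg2 x
      rcases h2 (r ∘ₗ g ∘ₗ i) (fun x => by
        change r (g (i (r (g (i x))))) = r (g (i x))
        rw [hg1', hg']) with h | h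
      · left
        refine LinearMap.ext fun x => ?_
        have := congrArg i (LinearMap.congr_fun h (r x))
        change i (r (g (i (r x)))) = i 0 at this
        rw [hg1', hg2', map_zero] at this
        exact this
      · right
        refine LinearMap.ext fun x => ?_
        have := congrArg i (LinearMap.congr_fun h (r x))
        change i (r (g (i (r x)))) = i (r x) at this
        rw [hg1', hg2'] at this
        exact this

/-- equivalence of idempotents and isomorphism of retracts -/
theorem eqv_iff (i : D →ₗ[R] N) (r : N →ₗ[R] D) (hir : ∀ x, r (i x) = x)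
    (i' : D' →ₗ[R] N) (r' : N →ₗ[R] D') (hir' : ∀ x, r' (i' x) = x) :
    Eqv (i ∘ₗ r : Module.End R N) (i' ∘ₗ r' : Module.End R N) ↔ Nonempty (D ≃ₗ[R] D') := by
  constructor
  · rintro ⟨a, b, h1, h2⟩
    have h1' : ∀ x, a (b x) = i (r x) := fun x => LinearMap.congr_fun h1 x
    have h2' : ∀ x, b (a x) = i' (r' x) := fun x => LinearMap.congr_fun h2 x
    refine ⟨LinearEquiv.ofLinearMap (r' ∘ₗ b ∘ₗ i) (r ∘ₗ a ∘ₗ i') ?_ ?_⟩
    · ext x
      change r' (b (i (r (a (i' x))))) = x
      rw [← h1', h2', hir', h2', hir', hir']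
    · ext x
      change r (a (i' (r' (b (i x))))) = x
      rw [← h2', h1', hir, h1', hir, hir]
  · rintro ⟨e⟩
    refine ⟨i ∘ₗ e.symm.toLinearMap ∘ₗ r', i' ∘ₗ e.toLinearMap ∘ₗ r, ?_, ?_⟩
    · refine LinearMap.ext fun x => ?_
      change i (e.symm (r' (i' (e (r x))))) = i (r x)
      rw [hir', e.symm_apply_apply]
    · refine LinearMap.ext fun x => ?_
      change i' (e (r (i (e.symm (r' x))))) = i' (r' x)
      rw [hir, e.apply_symm_apply]

theorem isCompl_range_ker (i : D →ₗ[R] N) (r : N →ₗ[R] D) (hir : ∀ x, r (i x) = x) :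
    IsCompl (LinearMap.range i) (LinearMap.ker r) := by
  rw [isCompl_iff, disjoint_iff, codisjoint_iff]
  constructor
  · rw [eq_bot_iff]
    rintro x ⟨⟨y, rfl⟩, hx⟩
    change r (i y) = 0 at hx
    rw [hir] at hx
    simp [hx]
  · rw [eq_top_iff]
    intro x _
    rw [Submodule.mem_sup]
    refine ⟨i (r x), ⟨r x, rfl⟩, x - i (r x), ?_, by abel⟩
    rw [LinearMap.mem_ker, map_sub, hir, sub_self]

/-- an indecomposable retract gives an indecomposable direct summand -/
noncomputable def rangeEquiv (i : D →ₗ[R] N) (r : N →ₗ[R] D) (hir : ∀ x, r (i x) = x) :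
    D ≃ₗ[R] LinearMap.range i :=
  LinearEquiv.ofInjective i (fun x y h => by rw [← hir x, h, hir])

/-- the direct summand of an indecomposable retract -/
theorem exists_summand (hD : Indecomposable R D) (h : Retr R D N) :
    ∃ p : IndSummand R N, Nonempty (p.1 ≃ₗ[R] D) := by
  obtain ⟨i, r, hir⟩ := h
  exact ⟨⟨LinearMap.range i, hD.congr (rangeEquiv i r hir), _, isCompl_range_ker i r hir⟩,
    ⟨(rangeEquiv i r hir).symm⟩⟩

theorem IndSummand.retr (p : IndSummand R N) : Retr R p.1 N := by
  obtain ⟨p, hp, q, hpq⟩ := p
  exact ⟨p.subtype, p.projectionOnto q hpq, fun x => Submodule.projectionOnto_apply_left hpq x⟩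

/-- `|N|` is the number of classes of primitive idempotents of `End N` -/
theorem numInd_eq_nu : numInd R N = nu (Module.End R N) := by
  choose i r hir using fun p : IndSummand R N => p.retr
  refine mk_quotient_eq _ _
    (fun p => ⟨(i p) ∘ₗ (r p), (prim_iff (i p) (r p) (hir p)).2 p.2.1⟩) ?_ ?_
  · intro p q
    exact (eqv_iff (i p) (r p) (hir p) (i q) (r q) (hir q)).symm
  · rintro ⟨e, he⟩
    have hee : ∀ x, e (e x) = e x := fun x => LinearMap.congr_fun he.1 x
    let i' : LinearMap.range e →ₗ[R] N := (LinearMap.range e).subtype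
    let r' : N →ₗ[R] LinearMap.range e := e.rangeRestrict
    have hir' : ∀ x, r' (i' x) = x := by
      rintro ⟨_, ⟨y, rfl⟩⟩
      exact Subtype.ext (hee y)
    have he' : (i' ∘ₗ r' : Module.End R N) = e := rfl
    have hind : Indecomposable R (LinearMap.range e) := by
      rw [← prim_iff i' r' hir', he']
      exact he
    obtain ⟨p, ⟨ep⟩⟩ := exists_summand hind ⟨i', r', hir'⟩
    refine ⟨p, ?_⟩
    change Eqv ((i p) ∘ₗ (r p) : Module.End R N) e
    rw [← he']
    exact (eqv_iff (i p) (r p) (hir p) i' r' hir').2 ⟨ep⟩

theorem numInd_self (R : Type) [Ring R] : numInd R R = nu R := by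
  rw [numInd_eq_nu, ← nu_op R]
  exact nu_congr (RingEquiv.moduleEndSelf R).symm

end basic

end Pool.Agent.H381.NK
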